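import Pool.Agent.MP_fa2b2f_an.Plane

open MeasureTheory Set
open scoped ENNReal
open Pool.Agent.MP_fa2b2f_an

namespace Pool.Agent.Results.MP_fa2b2f_an.NoClosedRepM

/-- There is a finite purely atomic Borel measure `ν` on the Euclidean plane such that, with
`m = Lebesgue + ν`, for every bounded domain `Ω` and every `λ > 0` with `λ * diam Ω < 2` the
functional `M_λ` has a minimizer and none of its minimizers has a closed representative. -/
theorem result :
    ∃ m ν : Measure ℂ, m = volume + ν ∧ IsFiniteMeasure ν ∧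
      (∃ S : Set ℂ, S.Countable ∧ ν Sᶜ = 0) ∧
      (∀ s : Set ℂ, Bornology.IsBounded s → m s < ∞) ∧
      ∀ Ω : Set ℂ, IsOpen Ω → IsConnected Ω → Bornology.IsBounded Ω →
        ∀ lam : ℝ, 0 < lam → lam * Metric.diam Ω < 2 →
          (∃ E : Set ℂ, IsMinM m Ω lam E) ∧
          ∀ E : Set ℂ, IsMinM m Ω lam E → ¬ HasClosedRep m E := by
  refine ⟨planeMeas, atoms, rfl, inferInstance, ⟨atomSet, countable_atomSet, atoms_compl⟩,
    fun s hs => planeMeas_lt_top hs, ?_⟩
  intro Ω ho hc hb lam hl0 hl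
  have hsd : ∀ A : Set ℂ, A ⊆ Ω → symmDiff Ω A = Ω \ A := by
    intro A hA
    ext z
    constructor
    · rintro (h | h)
      · exact h
      · exact absurd (hA h.1) h.2
    · intro h
      exact Or.inl h
  have heq : ∀ A : Set ℂ, A ⊆ Ω → funM planeMeas Ω lam A = funMt planeMeas Ω lam A := by
    intro A hA
    unfold funM funMt
    rw [hsd A hA]
  have hsub : atomsIn Ω ⊆ Ω := inter_subset_right
  refine ⟨⟨atomsIn Ω, measurableSet_atomsIn Ω, hsub, ?_⟩, ?_⟩
  · intro A hA hAΩ
    rw [heq _ hsub, heq _ hAΩ]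
    exact (funMt_atomsIn hb lam).trans (lower_bound ho hb hl0 hl hA)
  · rintro E ⟨hE, hEΩ, hmin⟩
    have h1 := hmin (atomsIn Ω) (measurableSet_atomsIn Ω) hsub
    rw [heq _ hsub, heq _ hEΩ] at h1
    obtain ⟨h2, h3⟩ := rigidity ho hb hl0 hl hE (h1.trans (funMt_atomsIn hb lam))
    exact no_closedRep ho hc.nonempty h2 h3

end Pool.Agent.Results.MP_fa2b2f_an.NoClosedRepM
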